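import Pool.Agent.R186.Fox.AAll
import Pool.Agent.R186.Fox.WAll
import Pool.Agent.R186.Fox.MAll

/-!
# The starting position of Fox and Geese has the value 2 + over

Left has the geese, Right has the fox. The starting position (geese on a1, c1, e1, g1, fox
on d8) is a stopper, and it is equal to the stopper `2 + over`, where `over = {0 | over} = 1/on`,
and to the stopper `V = {2 | V}`. Equality is meant in the theory of loopy games: the same
outcomes in every context (for every loopy game `X`, the sums with `X` have the same outcome).
-/

set_option autoImplicit false

namespace Pool.Agent.Results.MP_ab3a84_co.TwoPlusOver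

open Pool.Agent.R186.Fox

theorem start_tests : (List.range 64).all (chkS AData.table) = true := by decide +kernel

theorem start_in : has MData.table
    (Nat.add (Nat.mul (Nat.add (Nat.mul m0 64) (idx start.fox)) 4) 3) = true := by
  decide +kernel

theorem start_eq_val : Equal foxAndGeese start valGame Val.top := by
  refine equal_of (g := start) (h := Val.top) (surv_A ACheck.all start_tests)
    (surv_B MCheck.all WCheck.all) alt_fox alt_val ?_ ?_
  · refine Or.inl ⟨rfl, rfl, rfl, ?_⟩
    show ((3, 7) : Square) ∉ ({(0, 0), (2, 0), (4, 0), (6, 0)} : Finset Square)
    decide
  · refine TB_of_inT (m := m0) (f := idx start.fox) (w := 8) MCheck.all WCheck.all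
      (start_rep (3, 7) rfl) ?_
    exact start_in

/-- The starting position of Fox and Geese is a stopper and has the value `2 + over`; it is
also equal to the stopper `V = {2 | V}`. -/
theorem result :
    IsStopper foxAndGeese start ∧
      IsStopper (natGame.add overGame) ((2, true) : ℕ × Bool) ∧
      IsStopper valGame Val.top ∧
      Equal foxAndGeese start (natGame.add overGame) ((2, true) : ℕ × Bool) ∧
      Equal foxAndGeese start valGame Val.top :=
  ⟨alt_fox.isStopper start, alt_twoOver.isStopper _, alt_val.isStopper _,
    start_eq_val.trans val_eq_twoOver, start_eq_val⟩

end Pool.Agent.Results.MP_ab3a84_co.TwoPlusOver
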